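import Pool.Agent.Results.MP_4ffbf9_nt.AllDegreesCount
import Pool.Agent.R909.RandCong
import Pool.Agent.R479.DA.Lim

/-!
# `A X + B Y = C Z` in products of bounded spread: solutions congruent to random residues

Let `N j` be the norms of moduli with a convergent sum of the `N j ^ (-s)` (such as the squareful
numbers, for `s > 1 / 2`), let `X j` be random residues, each value of which has probability
`O (N j ^ (-d))`, `s < d`, and let `φ j` be any maps from the rational numbers to the residues. For all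
`A`, `B`, `C`, `S`, `Q` and `τ > 0` there is `R` such that almost surely only finitely many solutions
of `A X + B Y = C Z` with `gcd (X, Y) ≤ Q * rad (gcd (X, Y))` in products of spread at most `S`, of
degrees at least `R` (no upper bound), satisfy `φ j (A X / (C Z)) = X j` for some `j` with
`T ^ τ ≤ N j`, where `T` is the largest factor.

The proof uses the number of the ratios of the solutions (`AllDegreesCount`, starting repository), the
Borel-Cantelli lemma in the form of `Pool.Agent.R909.RandCong` (helper909), and the finiteness of the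
number of the solutions with a given ratio: one factor occurs three times, so that its square divides
a bounded number.
-/

set_option autoImplicit false

namespace Pool.Agent.Results.MP_4ffbf9_nt.RandomResidues

open MeasureTheory Filter
open Pool.Agent.Results.MP_4ffbf9_nt.AllDegreesCount (IsProduct Solutions Ratios list_rep)

/-- the ratio `A X / (C Z)` of a solution -/
def ratio (A C : ℕ) (w : ℕ × ℕ × ℕ) : ℚ := ((A * w.1 : ℕ) : ℚ) / ((C * w.2.2 : ℕ) : ℚ)

theorem isProduct_mono {S T T' R R' X : ℕ} (hT : T ≤ T') (hR : R' ≤ R)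
    (h : IsProduct S T R X) : IsProduct S T' R' X := by
  obtain ⟨l, h1, h2, h3, h4⟩ := h
  exact ⟨l, h1, hR.trans h2, fun a ha => ⟨(h3 a ha).1, (h3 a ha).2.trans hT⟩, h4⟩

theorem isProduct_pos {S T R X : ℕ} (h : IsProduct S T R X) : 0 < X := by
  obtain ⟨l, h1, -, h3, -⟩ := h
  rw [← h1]
  exact List.prod_pos fun a ha => (h3 a ha).1

theorem solutions_mono {S Q T T' R R' A B C : ℕ} (hT : T ≤ T') (hR : R' ≤ R) :
    Solutions S Q T R A B C ⊆ Solutions S Q T' R' A B C := by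
  rintro w ⟨h1, h2, h3, h4, h5⟩
  exact ⟨h1, h2, isProduct_mono hT hR h3, isProduct_mono hT hR h4, isProduct_mono hT hR h5⟩

theorem ratios_mono {S Q T T' R R' A B C : ℕ} (hT : T ≤ T') (hR : R' ≤ R) :
    Ratios S Q T R A B C ⊆ Ratios S Q T' R' A B C := by
  rintro t ⟨w, hw, rfl⟩
  exact ⟨w, solutions_mono hT hR hw, rfl⟩

theorem one_le_of_isProduct {S T R X : ℕ} (hR : 1 ≤ R) (h : IsProduct S T R X) : 1 ≤ T := by
  obtain ⟨l, h1, h2, h3, -⟩ := h
  cases l with
  | nil => simp at h2; omega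
  | cons a l =>
    have := h3 a List.mem_cons_self
    omega

/-- If `a ^ 3` divides `m * r`, `r` squarefree, then `a ^ 2` divides `m`. -/
theorem sq_dvd_of_cube_dvd {a m r : ℕ} (ha : 0 < a) (hm : 0 < m) (hr : Squarefree r)
    (h : a ^ 3 ∣ m * r) : a ^ 2 ∣ m := by
  have hr0 : r ≠ 0 := hr.ne_zero
  rw [← Nat.factorization_le_iff_dvd (pow_ne_zero _ ha.ne') hm.ne']
  rw [← Nat.factorization_le_iff_dvd (pow_ne_zero _ ha.ne') (mul_ne_zero hm.ne' hr0)] at h
  intro p
  have h1 := h p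
  rw [Nat.factorization_mul hm.ne' hr0, Nat.factorization_pow] at h1
  simp only [Finsupp.smul_apply, Finsupp.add_apply, smul_eq_mul] at h1
  rw [Nat.factorization_pow]
  simp only [Finsupp.smul_apply, smul_eq_mul]
  have h2 : r.factorization p ≤ 1 := hr.natFactorization_le_one p
  omega

/-- some factor of a product of many factors in an interval occurs at least three times -/
theorem exists_cube {S T R X : ℕ} (hR : 3 * (S + 1) ≤ R) (h : IsProduct S T R X) :
    ∃ a : ℕ, 0 < a ∧ a ^ 3 ∣ X ∧ ∀ p : ℕ, p.Prime → p ∣ X → p ≤ a + S := by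
  obtain ⟨l, h1, h2, h4, h5⟩ := h
  have hne : l.toFinset.Nonempty := by
    rw [List.toFinset_nonempty_iff]
    intro h
    rw [h] at h2
    simp at h2
    omega
  obtain ⟨b, hb, hmin⟩ := Finset.exists_min_image l.toFinset (fun a => a) hne
  have hbl : b ∈ l := List.mem_toFinset.1 hb
  obtain ⟨k, hk1, hk2⟩ := list_rep b S l fun a ha =>
    ⟨hmin a (List.mem_toFinset.2 ha), h5 a ha b hbl⟩
  have hb1 : 1 ≤ b := (h4 b hbl).1
  obtain ⟨t, ht⟩ : ∃ t, 3 ≤ k t := by
    by_contra hcon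
    push Not at hcon
    have h6 : ∑ t, k t ≤ ∑ _t : Fin (S + 1), 2 :=
      Finset.sum_le_sum (fun t _ => by have := hcon t; omega)
    rw [Finset.sum_const, Finset.card_univ, Fintype.card_fin, smul_eq_mul, hk2] at h6
    omega
  refine ⟨b + (t : ℕ), by omega, ?_, fun p hp hpX => ?_⟩
  · rw [← h1, hk1]
    exact (pow_dvd_pow _ ht).trans (Finset.dvd_prod_of_mem
      (fun t : Fin (S + 1) => (b + (t : ℕ)) ^ k t) (Finset.mem_univ t))
  · rw [← h1] at hpX
    obtain ⟨a, ha, hpa⟩ := (Prime.dvd_prod_iff (Nat.prime_iff.1 hp)).1 hpX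
    have h6 : a ≤ b + S := h5 a ha b hbl
    have h7 : p ≤ a := Nat.le_of_dvd (h4 a ha).1 hpa
    omega

theorem prod_Icc_eq (n : ℕ) : ∏ p ∈ Finset.Icc 1 n, p = n.factorial := by
  induction n with
  | zero => simp
  | succ n ih =>
    rw [Finset.prod_Icc_succ_top (by omega), ih, Nat.factorial_succ, mul_comm]

/-- **Only finitely many solutions have a given ratio.** -/
theorem fibre_finite {S Q R A B C : ℕ} (hA : 0 < A) (hB : 0 < B) (hC : 0 < C)
    (hR : 3 * (S + 1) ≤ R) (t : ℚ) :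
    {w : ℕ × ℕ × ℕ | ∃ T, w ∈ Solutions S Q T R A B C ∧ ratio A C w = t}.Finite := by
  by_cases hne : ∃ w0 : ℕ × ℕ × ℕ, ∃ T, w0 ∈ Solutions S Q T R A B C ∧ ratio A C w0 = t
  swap
  · convert Set.finite_empty (α := ℕ × ℕ × ℕ)
    ext w
    simp only [Set.mem_ofPred_eq, Set.mem_empty_iff_false, iff_false]
    exact fun h => hne ⟨w, h⟩
  obtain ⟨⟨X0, Y0, Z0⟩, T0, ⟨e0, g0, p0, q0, r0⟩, ht0⟩ := hne
  simp only at e0 g0 p0 q0 r0
  have hX0 := isProduct_pos p0
  have hY0 := isProduct_pos q0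
  have hZ0 := isProduct_pos r0
  set M : ℕ := X0 * (Q * (X0 * Q + S).factorial) with hM
  refine (Set.finite_Icc ((0, 0, 0) : ℕ × ℕ × ℕ) (M, M * Y0, M * Z0)).subset ?_
  rintro ⟨X, Y, Z⟩ ⟨T, ⟨e1, g1, p1, q1, r1⟩, ht1⟩
  simp only at e1 g1 p1 q1 r1
  have hX := isProduct_pos p1
  have hY := isProduct_pos q1
  have hZ := isProduct_pos r1
  have hr : X * Z0 = X0 * Z := by
    rw [← ht0] at ht1
    unfold ratio at ht1
    simp only at ht1
    have hz : ((C * Z : ℕ) : ℚ) ≠ 0 := by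
      have := Nat.mul_pos hC hZ
      exact_mod_cast this.ne'
    have hz0 : ((C * Z0 : ℕ) : ℚ) ≠ 0 := by
      have := Nat.mul_pos hC hZ0
      exact_mod_cast this.ne'
    rw [div_eq_div_iff hz hz0] at ht1
    have h2 : (A * X) * (C * Z0) = (A * X0) * (C * Z) := by exact_mod_cast ht1
    have h3 : (A * C) * (X * Z0) = (A * C) * (X0 * Z) := by
      calc (A * C) * (X * Z0) = (A * X) * (C * Z0) := by ring
        _ = (A * X0) * (C * Z) := h2
        _ = (A * C) * (X0 * Z) := by ring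
    exact Nat.eq_of_mul_eq_mul_left (Nat.mul_pos hA hC) h3
  have hs : X * Y0 = X0 * Y := by
    have h2 : B * (X * Y0) + A * (X * X0) = B * (X0 * Y) + A * (X * X0) := by
      calc B * (X * Y0) + A * (X * X0) = X * (A * X0 + B * Y0) := by ring
        _ = C * (X * Z0) := by rw [e0]; ring
        _ = C * (X0 * Z) := by rw [hr]
        _ = X0 * (A * X + B * Y) := by rw [e1]; ring
        _ = B * (X0 * Y) + A * (X * X0) := by ring
    exact Nat.eq_of_mul_eq_mul_left hB (by omega)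
  have hdvd : X ∣ X0 * Nat.gcd X Y := by
    rw [← Nat.gcd_mul_left]
    apply Nat.dvd_gcd
    · exact Dvd.intro_left X0 rfl
    · rw [← hs]
      exact Nat.dvd_mul_right _ _
  set g : ℕ := Nat.gcd X Y with hg
  have hgpos : 0 < g := Nat.gcd_pos_of_pos_left _ hX
  set rd : ℕ := ∏ p ∈ g.primeFactors, p with hrd
  have hrdg : rd ∣ g := Nat.prod_primeFactors_dvd g
  obtain ⟨h, hh⟩ := hrdg
  have hrdpos : 0 < rd := Finset.prod_pos fun p hp => (Nat.prime_of_mem_primeFactors hp).pos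
  have hhQ : h ≤ Q := by
    have h2 : rd * h ≤ rd * Q := by
      rw [← hh, mul_comm rd Q]
      exact g1
    exact Nat.le_of_mul_le_mul_left h2 hrdpos
  have hhpos : 0 < h := by
    rcases Nat.eq_zero_or_pos h with h0 | h0
    · rw [h0, mul_zero] at hh
      omega
    · exact h0
  have hsq : Squarefree rd := by
    rw [hrd]
    refine Finset.squarefree_prod_of_pairwise_isCoprime (fun p hp q hq hpq => ?_)
      (fun p hp => (Nat.prime_iff.1 (Nat.prime_of_mem_primeFactors hp)).squarefree)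
    simp only [Function.onFun, ← Nat.coprime_iff_isRelPrime]
    exact (Nat.coprime_primes (Nat.prime_of_mem_primeFactors hp)
      (Nat.prime_of_mem_primeFactors hq)).2 hpq
  obtain ⟨a, ha, ha3, hpr⟩ := exists_cube hR p1
  have h4 : a ^ 2 ∣ X0 * h := by
    apply sq_dvd_of_cube_dvd ha (Nat.mul_pos hX0 hhpos) hsq
    refine ha3.trans (hdvd.trans ?_)
    rw [hh]
    exact dvd_of_eq (by ring)
  have h5 : a ≤ X0 * Q := by
    have h6 : a ^ 2 ≤ X0 * h := Nat.le_of_dvd (Nat.mul_pos hX0 hhpos) h4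
    have h7 : a ≤ a ^ 2 := Nat.le_self_pow (by norm_num) a
    exact h7.trans (h6.trans (Nat.mul_le_mul_left _ hhQ))
  have h8 : rd ≤ (X0 * Q + S).factorial := by
    have h9 : g.primeFactors ⊆ (Finset.Icc 1 (X0 * Q + S)) := by
      intro p hp
      have hp1 := Nat.prime_of_mem_primeFactors hp
      have hp2 : p ∣ X := (Nat.dvd_of_mem_primeFactors hp).trans (Nat.gcd_dvd_left _ _)
      have := hpr p hp1 hp2
      rw [Finset.mem_Icc]
      exact ⟨hp1.one_lt.le, by omega⟩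
    rw [hrd]
    refine (Nat.le_of_dvd ?_ (Finset.prod_dvd_prod_of_subset _ _ (fun p => p) h9)).trans ?_
    · exact Finset.prod_pos fun p hp => (Finset.mem_Icc.1 hp).1
    · rw [prod_Icc_eq]
  have h10 : g ≤ Q * (X0 * Q + S).factorial := by
    rw [hh, mul_comm]
    exact Nat.mul_le_mul hhQ h8
  have h11 : X ≤ M := by
    refine (Nat.le_of_dvd (Nat.mul_pos hX0 hgpos) hdvd).trans ?_
    exact Nat.mul_le_mul_left _ h10
  have h12 : Y ≤ M * Y0 := by
    calc Y ≤ X0 * Y := Nat.le_mul_of_pos_left _ hX0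
      _ = X * Y0 := hs.symm
      _ ≤ M * Y0 := Nat.mul_le_mul_right _ h11
  have h13 : Z ≤ M * Z0 := by
    calc Z ≤ X0 * Z := Nat.le_mul_of_pos_left _ hX0
      _ = X * Z0 := hr.symm
      _ ≤ M * Z0 := Nat.mul_le_mul_right _ h11
  exact ⟨⟨Nat.zero_le _, Nat.zero_le _, Nat.zero_le _⟩, h11, h12, h13⟩

/-- the ratios of all solutions of degrees at least `R` -/
def IsRatio (S Q R A B C : ℕ) (t : ℚ) : Prop := ∃ T : ℕ, 1 ≤ T ∧ t ∈ Ratios S Q T R A B C

/-- the least possible bound for the factors of a solution with the ratio `t` -/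
noncomputable def ht (S Q R A B C : ℕ) (t : ℚ) : ℕ := sInf {T : ℕ | 1 ≤ T ∧ t ∈ Ratios S Q T R A B C}

theorem ht_spec {S Q R A B C : ℕ} {t : ℚ} (h : IsRatio S Q R A B C t) :
    1 ≤ ht S Q R A B C t ∧ t ∈ Ratios S Q (ht S Q R A B C t) R A B C :=
  Nat.sInf_mem (s := {T : ℕ | 1 ≤ T ∧ t ∈ Ratios S Q T R A B C}) h

theorem ht_le {S Q R A B C : ℕ} {t : ℚ} {T : ℕ} (hT : 1 ≤ T) (h : t ∈ Ratios S Q T R A B C) :
    ht S Q R A B C t ≤ T :=
  Nat.sInf_le (s := {T : ℕ | 1 ≤ T ∧ t ∈ Ratios S Q T R A B C}) ⟨hT, h⟩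

theorem summable_ratios (S Q A B C : ℕ) (hA : 0 < A) (hB : 0 < B) (hC : 0 < C) (p : ℝ)
    (hp : 0 < p) : ∃ R : ℕ, 3 * (S + 1) ≤ R ∧
      Summable fun t : {t : ℚ // IsRatio S Q R A B C t} => ((ht S Q R A B C t.1 : ℕ) : ℝ) ^ (-p) := by
  obtain ⟨R0, C₀, hC₀, hR0⟩ := AllDegreesCount.result S Q A B C hA hB hC (p / 2) (by positivity)
  set R : ℕ := max R0 (3 * (S + 1)) with hR
  refine ⟨R, le_max_right _ _, ?_⟩
  refine Pool.Agent.R479.DA.summable_heights
    (fun t : {t : ℚ // IsRatio S Q R A B C t} => ((ht S Q R A B C t.1 : ℕ) : ℝ)) ?_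
    (s := p / 2) (p := p) (C := C₀) (by linarith) hp ?_
  · rintro ⟨t, ht⟩
    exact_mod_cast (ht_spec ht).1
  · intro Z hZ
    set T : ℕ := ⌊Z⌋₊ with hT
    have hT1 : 1 ≤ T := Nat.le_floor (by exact_mod_cast hZ)
    obtain ⟨⟨hf, hc⟩, -⟩ := hR0 T hT1
    have hmaps : Set.MapsTo Subtype.val
        {t : {t : ℚ // IsRatio S Q R A B C t} | ((ht S Q R A B C t.1 : ℕ) : ℝ) ≤ Z}
        (Ratios S Q T R0 A B C) := by
      rintro ⟨t, h0⟩ h1
      have h2 : ht S Q R A B C t ≤ T := Nat.le_floor h1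
      exact ratios_mono h2 (le_max_left _ _) (ht_spec h0).2
    have hinj : Set.InjOn Subtype.val
        {t : {t : ℚ // IsRatio S Q R A B C t} | ((ht S Q R A B C t.1 : ℕ) : ℝ) ≤ Z} :=
      Subtype.val_injective.injOn
    refine ⟨hf.of_injOn hmaps hinj, ?_⟩
    have h3 := Set.ncard_le_ncard_of_injOn _ hmaps hinj hf
    calc _ ≤ (((Ratios S Q T R0 A B C).ncard : ℕ) : ℝ) := by exact_mod_cast h3
      _ ≤ C₀ * (T : ℝ) ^ (p / 2) := hc
      _ ≤ C₀ * Z ^ (p / 2) := by
          refine mul_le_mul_of_nonneg_left ?_ hC₀.le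
          exact Real.rpow_le_rpow (Nat.cast_nonneg _) (Nat.floor_le (by linarith)) (by positivity)

/-- **Theorem.** Let `A`, `B`, `C` be positive integers and `p > 0`. There is `R` such that the
following holds. Let `N j ≥ 1` have a convergent sum of the `N j ^ (-s)`, let `X j` be random elements
of the sets `Rs j`, each value of which has probability at most `K₀ * N j ^ (-d)`, `s ≤ d` (no
independence is assumed), let `φ j` be any maps from the rational numbers to `Rs j`, and let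
`p + η ≤ (d - s) τ`, `0 ≤ η`. Almost surely there are only finitely many solutions `(X, Y, Z)` of
`A X + B Y = C Z` with `gcd (X, Y) ≤ Q * rad (gcd (X, Y))` in products of spread at most `S` and of
degrees at least `R`, whose factors are at most `T` with `T ^ τ ≤ N j` and whose ratio `A X / (C Z)`
satisfies `φ j (A X / (C Z)) = X j`, for some `j`. The probability that there is such a solution, with
a ratio which is not the ratio of a solution with factors less than `y`, is at most `K y ^ (-η)`. -/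
theorem result (S Q A B C : ℕ) (hA : 0 < A) (hB : 0 < B) (hC : 0 < C) (p : ℝ) (hp : 0 < p) :
    ∃ R : ℕ, ∀ (J Ω : Type) [MeasurableSpace Ω] (P : Measure Ω) (Rs : J → Type) (N : J → ℝ)
      (X : ∀ j : J, Ω → Rs j) (φ : ∀ j : J, ℚ → Rs j) (s d K₀ τ η : ℝ), (∀ j, 1 ≤ N j) → s ≤ d →
      (Summable fun j => N j ^ (-s)) →
      (∀ j, ∀ r : Rs j, P {ω | X j ω = r} ≤ ENNReal.ofReal (K₀ * N j ^ (-d))) →
      0 ≤ τ → 0 ≤ η → p + η ≤ (d - s) * τ →
      (∀ᵐ ω ∂P, {w : ℕ × ℕ × ℕ | ∃ (j : J) (T : ℕ), w ∈ Solutions S Q T R A B C ∧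
        (T : ℝ) ^ τ ≤ N j ∧ φ j (ratio A C w) = X j ω}.Finite) ∧
      ∃ K : ℝ, ∀ y : ℝ, 1 ≤ y →
        P {ω | ∃ (w : ℕ × ℕ × ℕ) (j : J) (T : ℕ), w ∈ Solutions S Q T R A B C ∧
          (T : ℝ) ^ τ ≤ N j ∧ φ j (ratio A C w) = X j ω ∧
          ∀ T' : ℕ, (T' : ℝ) < y → ratio A C w ∉ Ratios S Q T' R A B C} ≤
          ENNReal.ofReal (K * y ^ (-η)) := by
  obtain ⟨R, hR, hsum⟩ := summable_ratios S Q A B C hA hB hC p hp
  refine ⟨R, fun J Ω _ P Rs N X φ s d K₀ τ η hN hs hNs hX hτ hη hpη => ?_⟩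
  have key : ∀ (w : ℕ × ℕ × ℕ) (T : ℕ), w ∈ Solutions S Q T R A B C →
      IsRatio S Q R A B C (ratio A C w) ∧
        ((ht S Q R A B C (ratio A C w) : ℕ) : ℝ) ^ τ ≤ (T : ℝ) ^ τ := by
    intro w T hw
    have hT : 1 ≤ T := one_le_of_isProduct (by omega) hw.2.2.1
    have hmem : ratio A C w ∈ Ratios S Q T R A B C := ⟨w, hw, rfl⟩
    refine ⟨⟨T, hT, hmem⟩, ?_⟩
    exact Real.rpow_le_rpow (Nat.cast_nonneg _) (by exact_mod_cast ht_le hT hmem) hτ
  obtain ⟨h1, K, hK⟩ := Pool.Agent.R909.RC.main_subtype (P := P) (T := ℚ)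
    (H := fun t => ((ht S Q R A B C t : ℕ) : ℝ)) (Q := fun t => IsRatio S Q R A B C t)
    (X := X) (φ := φ)
    (fun t ht => by exact_mod_cast (ht_spec ht).1) hN hs hX hNs hη hpη hsum
  refine ⟨?_, K, fun y hy => ?_⟩
  · filter_upwards [h1] with ω hω
    have h2 : (⋃ t ∈ (Prod.snd '' {i : J × ℚ | IsRatio S Q R A B C i.2 ∧
        ((ht S Q R A B C i.2 : ℕ) : ℝ) ^ τ ≤ N i.1 ∧ φ i.1 i.2 = X i.1 ω}),
        {w : ℕ × ℕ × ℕ | ∃ T, w ∈ Solutions S Q T R A B C ∧ ratio A C w = t}).Finite :=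
      (hω.image _).biUnion fun t _ => fibre_finite hA hB hC hR t
    refine h2.subset ?_
    rintro w ⟨j, T, hw, hT, hφ⟩
    rw [Set.mem_iUnion₂]
    obtain ⟨k1, k2⟩ := key w T hw
    exact ⟨ratio A C w, ⟨(j, ratio A C w), ⟨k1, k2.trans hT, hφ⟩, rfl⟩, T, hw, rfl⟩
  · refine le_trans (measure_mono ?_) (hK y hy)
    rintro ω ⟨w, j, T, hw, hT, hφ, hy'⟩
    obtain ⟨k1, k2⟩ := key w T hw
    refine ⟨(j, ratio A C w), k1, ?_, k2.trans hT, hφ⟩
    by_contra hcon
    push Not at hcon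
    exact hy' _ hcon (ht_spec k1).2

end Pool.Agent.Results.MP_4ffbf9_nt.RandomResidues
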