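import Pool.Agent.R909.RSLeast
import Pool.Agent.Results.MP_4ffbf9_nt.AllDegreesCount

/-!
# `A X + B Y = C Z` in products of small spread with factors in random sets

Let `A`, `B`, `C` be positive integers. For all `S`, `Q` and `γ > 0` there is `R` such that for every
random set `𝒜` of positive integers which contains `n` with probability `O(n ^ (-γ))` the following
holds almost surely for the solutions of `A X + B Y = C Z` with `gcd (X, Y) ≤ Q * rad (gcd (X, Y))`
in products of spread at most `S` and degrees at least `R`: they have only finitely many ratios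
`X : Y : Z` whose least bound for the factors is in `𝒜`; and only finitely many of the solutions
with `gcd (X, Y) ≤ Q` have their least bound for the factors in `𝒜`.
-/

set_option autoImplicit false

namespace Pool.Agent.Results.MP_4ffbf9_nt.RandomSets

open Filter Topology MeasureTheory
open Pool.Agent.Results.MP_4ffbf9_nt.AllDegreesCount (IsProduct Solutions Ratios)

/-- `n` belongs to the random set `𝒜` with probability at most `C * n ^ (-γ)` -/
def Sparse {Ω : Type} [MeasurableSpace Ω] (P : Measure Ω) (𝒜 : Ω → Set ℕ) (γ C : ℝ) : Prop :=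
  ∀ n : ℕ, 0 < n → P {ω | n ∈ 𝒜 ω} ≤ ENNReal.ofReal (C * (n : ℝ) ^ (-γ))

/-- the ratios `A X / (C Z)` of the solutions of degrees at least `R` -/
def AllRatios (S Q R A B C : ℕ) : Set ℚ := {t | ∃ T : ℕ, t ∈ Ratios S Q T R A B C}

/-- the least `T` such that the ratio `t` comes from a solution with all factors at most `T` -/
noncomputable def ratioHeight (S Q R A B C : ℕ) (t : ℚ) : ℕ := sInf {T : ℕ | t ∈ Ratios S Q T R A B C}

/-- the solutions of degrees at least `R` with `gcd (X, Y) ≤ Q` -/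
def AllSolutions (S Q R A B C : ℕ) : Set (ℕ × ℕ × ℕ) :=
  {w | ∃ T : ℕ, w ∈ {w ∈ Solutions S Q T R A B C | Nat.gcd w.1 w.2.1 ≤ Q}}

/-- the least `T` such that `X`, `Y`, `Z` are products of spread at most `S` and degree at least `R`
with all factors at most `T` -/
noncomputable def height (S Q R A B C : ℕ) (w : ℕ × ℕ × ℕ) : ℕ :=
  sInf {T : ℕ | w ∈ {w ∈ Solutions S Q T R A B C | Nat.gcd w.1 w.2.1 ≤ Q}}

lemma IsProduct.mono {S T T' R R' X : ℕ} (hT : T ≤ T') (hR : R' ≤ R) (h : IsProduct S T R X) :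
    IsProduct S T' R' X := by
  obtain ⟨l, h1, h2, h3, h4⟩ := h
  exact ⟨l, h1, hR.trans h2, fun a ha => ⟨(h3 a ha).1, (h3 a ha).2.trans hT⟩, h4⟩

lemma not_isProduct {S R X : ℕ} : ¬ IsProduct S 0 (R + 1) X := by
  rintro ⟨l, -, h2, h3, -⟩
  rcases l with _ | ⟨a, l⟩
  · simp at h2
  · have h4 := h3 a (by simp)
    omega

lemma Solutions.mono {S Q T T' R R' A B C : ℕ} (hT : T ≤ T') (hR : R' ≤ R) :
    Solutions S Q T R A B C ⊆ Solutions S Q T' R' A B C := by
  rintro w ⟨h1, h2, h3, h4, h5⟩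
  exact ⟨h1, h2, IsProduct.mono hT hR h3, IsProduct.mono hT hR h4, IsProduct.mono hT hR h5⟩

lemma Ratios.mono {S Q T T' R R' A B C : ℕ} (hT : T ≤ T') (hR : R' ≤ R) :
    Ratios S Q T R A B C ⊆ Ratios S Q T' R' A B C := by
  rintro t ⟨w, hw, h⟩
  exact ⟨w, Solutions.mono hT hR hw, h⟩

/-- **Theorem.** Let `A, B, C` be positive integers. For all `S`, `Q` and `γ > 0` there is `R` such
that for every random set `𝒜` of positive integers which contains each `n` with probability at most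
`C₀ n ^ (-γ)`: (1) almost surely only finitely many ratios `t` of solutions of degrees at least `R`
have `ratioHeight t ∈ 𝒜`, and the probability that there is such a `t` of height at least `y` is
`O (y ^ (-γ / 2))`; (2) the same holds for the solutions with `gcd (X, Y) ≤ Q`. -/
theorem result (S Q A B C : ℕ) (hA : 0 < A) (hB : 0 < B) (hC : 0 < C) (γ : ℝ) (hγ : 0 < γ) :
    ∃ R : ℕ, ∀ (Ω : Type) [MeasurableSpace Ω] (P : Measure Ω) (𝒜 : Ω → Set ℕ) (C₀ : ℝ),
      Sparse P 𝒜 γ C₀ →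
      ((∀ᵐ ω ∂P, {t : ℚ | t ∈ AllRatios S Q R A B C ∧ ratioHeight S Q R A B C t ∈ 𝒜 ω}.Finite) ∧
        ∃ D : ℝ, ∀ y : ℝ, 1 ≤ y →
          P {ω | ∃ t : ℚ, t ∈ AllRatios S Q R A B C ∧ y ≤ ((ratioHeight S Q R A B C t : ℕ) : ℝ) ∧
            ratioHeight S Q R A B C t ∈ 𝒜 ω} ≤ ENNReal.ofReal (D * y ^ (-(γ / 2)))) ∧
      ((∀ᵐ ω ∂P, {w : ℕ × ℕ × ℕ | w ∈ AllSolutions S Q R A B C ∧
          height S Q R A B C w ∈ 𝒜 ω}.Finite) ∧
        ∃ D : ℝ, ∀ y : ℝ, 1 ≤ y →
          P {ω | ∃ w : ℕ × ℕ × ℕ, w ∈ AllSolutions S Q R A B C ∧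
            y ≤ ((height S Q R A B C w : ℕ) : ℝ) ∧ height S Q R A B C w ∈ 𝒜 ω} ≤
            ENNReal.ofReal (D * y ^ (-(γ / 2)))) := by
  obtain ⟨R, C₁, hC₁, h⟩ := AllDegreesCount.result S Q A B C hA hB hC (γ / 4) (by linarith)
  refine ⟨R + 1, fun Ω _ P 𝒜 C₀ hs => ⟨?_, ?_⟩⟩
  · refine Pool.Agent.R909.RSL.finite_lst (D := fun T : ℕ => Ratios S Q T (R + 1) A B C) hs hγ
      ?_ (fun Y Y' hY => Ratios.mono hY le_rfl) (C := C₁) (fun T hT => ?_)
    · rintro t ⟨w, ⟨-, -, h3, -, -⟩, -⟩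
      exact not_isProduct h3
    · obtain ⟨⟨h1, h2⟩, -⟩ := h T hT
      have hsub := Ratios.mono (S := S) (Q := Q) (A := A) (B := B) (C := C) (le_refl T)
        (Nat.le_succ R)
      exact ⟨h1.subset hsub, le_trans (by exact_mod_cast Set.ncard_le_ncard hsub h1) h2⟩
  · refine Pool.Agent.R909.RSL.finite_lst
      (D := fun T : ℕ => {w ∈ Solutions S Q T (R + 1) A B C | Nat.gcd w.1 w.2.1 ≤ Q}) hs hγ
      ?_ (fun Y Y' hY => ?_) (C := C₁) (fun T hT => ?_)
    · rintro w ⟨⟨-, -, h3, -, -⟩, -⟩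
      exact not_isProduct h3
    · rintro w ⟨h1, h2⟩
      exact ⟨Solutions.mono hY le_rfl h1, h2⟩
    · obtain ⟨-, h1, h2⟩ := h T hT
      have hsub : {w ∈ Solutions S Q T (R + 1) A B C | Nat.gcd w.1 w.2.1 ≤ Q} ⊆
          {w ∈ Solutions S Q T R A B C | Nat.gcd w.1 w.2.1 ≤ Q} := by
        rintro w ⟨h3, h4⟩
        exact ⟨Solutions.mono le_rfl (Nat.le_succ R) h3, h4⟩
      exact ⟨h1.subset hsub, le_trans (by exact_mod_cast Set.ncard_le_ncard hsub h1) h2⟩

end Pool.Agent.Results.MP_4ffbf9_nt.RandomSets
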