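import Pool.Agent.Results.MP_4ffbf9_nt.AllDegreesCount
import Pool.Agent.R559.NP.Near3

/-!
# Solutions of `A X + B Y = C Z` in products of bounded spread with the ratio near a given point

Let `φ` be any map from the rational numbers to a metric space (for example the inclusion in `ℝ` or in `ℚ_l`).  For all
points `ξ` outside a set of Hausdorff dimension zero, all `τ > 0` and all `A, B, C, S, Q` there is `R` such that the
solutions of `A X + B Y = C Z` with `gcd (X, Y) ≤ Q rad (gcd (X, Y))` in products of spread at most `S` and of degrees at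
least `R` (no upper bound) for which `dist (φ (AX / (CZ))) ξ ≤ c T ^ (-τ)`, `T` the largest factor, have only finitely many
ratios `X : Y : Z`; only finitely many of these solutions have `gcd (X, Y) ≤ Q`.
-/

set_option autoImplicit false

open Filter Topology

namespace Pool.Agent.Results.MP_4ffbf9_nt.RatiosNearAPoint

open AllDegreesCount (IsProduct Solutions Ratios)

/-- the ratio `A X / (C Z)` -/
def ratio (A C : ℕ) (w : ℕ × ℕ × ℕ) : ℚ := ((A * w.1 : ℕ) : ℚ) / ((C * w.2.2 : ℕ) : ℚ)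

lemma prod_mono {S T T' R X : ℕ} (hT : T ≤ T') (h : IsProduct S T R X) : IsProduct S T' R X := by
  obtain ⟨l, h1, h2, h3, h4⟩ := h
  exact ⟨l, h1, h2, fun a ha => ⟨(h3 a ha).1, (h3 a ha).2.trans hT⟩, h4⟩

lemma sol_mono {S Q T T' R A B C : ℕ} (hT : T ≤ T') : Solutions S Q T R A B C ⊆ Solutions S Q T' R A B C := by
  rintro w ⟨h1, h2, h3, h4, h5⟩
  exact ⟨h1, h2, prod_mono hT h3, prod_mono hT h4, prod_mono hT h5⟩

lemma prod_anti {S T R R' X : ℕ} (hR : R ≤ R') (h : IsProduct S T R' X) : IsProduct S T R X := by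
  obtain ⟨l, h1, h2, h3, h4⟩ := h
  exact ⟨l, h1, hR.trans h2, h3, h4⟩

lemma sol_anti {S Q T R R' A B C : ℕ} (hR : R ≤ R') : Solutions S Q T R' A B C ⊆ Solutions S Q T R A B C := by
  rintro w ⟨h1, h2, h3, h4, h5⟩
  exact ⟨h1, h2, prod_anti hR h3, prod_anti hR h4, prod_anti hR h5⟩

/-- **Theorem.** For every map `φ` from the rational numbers to a metric space `X` there is a set `E ⊆ X` of Hausdorff
dimension zero such that for all `ξ` outside `E`, all `τ > 0` and all `S`, `Q` and positive integers `A`, `B`, `C` there is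
`R` such that for every `c`
(1) there are only finitely many ratios `A X / (C Z)` of solutions in products of spread at most `S`, of degrees at least
`R` and with all factors at most `T`, for which `dist (φ (A X / (C Z))) ξ ≤ c T ^ (-τ)`;
(2) there are only finitely many such solutions with `gcd (X, Y) ≤ Q`.
Here `T` is any integer (best: the largest factor of the solution). -/
theorem result (X : Type) [MetricSpace X] (φ : ℚ → X) : ∃ E : Set X, dimH E = 0 ∧ ∀ ξ : X, ξ ∉ E →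
    ∀ τ : ℝ, 0 < τ → ∀ S Q A B C : ℕ, 0 < A → 0 < B → 0 < C → ∃ R : ℕ, ∀ c : ℝ,
      {x : ℚ | ∃ T : ℕ, 1 ≤ T ∧ x ∈ Ratios S Q T R A B C ∧ dist (φ x) ξ ≤ c * (T : ℝ) ^ (-τ)}.Finite ∧
      {w : ℕ × ℕ × ℕ | ∃ T : ℕ, 1 ≤ T ∧ w ∈ Solutions S Q T R A B C ∧ Nat.gcd w.1 w.2.1 ≤ Q ∧
        dist (φ (ratio A C w)) ξ ≤ c * (T : ℝ) ^ (-τ)}.Finite := by
  classical
  -- the parameters
  let Y : Type := {y : ℕ × ℕ × ℕ × ℕ × ℕ // 0 < y.2.2.1 ∧ 0 < y.2.2.2.1 ∧ 0 < y.2.2.2.2}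
  have hres : ∀ (j : ℕ) (y : Y), ∃ (R : ℕ) (C₀ : ℝ), 0 < C₀ ∧ ∀ T : ℕ, 1 ≤ T →
      ((Ratios y.1.1 y.1.2.1 T R y.1.2.2.1 y.1.2.2.2.1 y.1.2.2.2.2).Finite ∧
        ((Ratios y.1.1 y.1.2.1 T R y.1.2.2.1 y.1.2.2.2.1 y.1.2.2.2.2).ncard : ℝ) ≤
          C₀ * (T : ℝ) ^ (1 / ((j : ℝ) + 1))) ∧
      ({w ∈ Solutions y.1.1 y.1.2.1 T R y.1.2.2.1 y.1.2.2.2.1 y.1.2.2.2.2 |
          Nat.gcd w.1 w.2.1 ≤ y.1.2.1}.Finite ∧
        ({w ∈ Solutions y.1.1 y.1.2.1 T R y.1.2.2.1 y.1.2.2.2.1 y.1.2.2.2.2 |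
          Nat.gcd w.1 w.2.1 ≤ y.1.2.1}.ncard : ℝ) ≤ C₀ * (T : ℝ) ^ (1 / ((j : ℝ) + 1))) := fun j y =>
    AllDegreesCount.result y.1.1 y.1.2.1 y.1.2.2.1 y.1.2.2.2.1 y.1.2.2.2.2 y.2.1 y.2.2.1 y.2.2.2
      (1 / ((j : ℝ) + 1)) (by positivity)
  choose R C₀ hC₀ hR using hres
  have hpos : ∀ j : ℕ, 0 ≤ 1 / ((j : ℝ) + 1) := fun j => by positivity
  obtain ⟨E1, hE1, h1⟩ := Pool.Agent.R559.NP.near_zero_lvl (Y := Y) (Z := ℚ) (X := X)
    (F := fun j y T => Ratios y.1.1 y.1.2.1 T (R j y) y.1.2.2.1 y.1.2.2.2.1 y.1.2.2.2.2)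
    (by
      rintro j y t t' htt x ⟨w, hw, rfl⟩
      exact ⟨w, sol_mono htt hw, rfl⟩)
    (s := fun j => 1 / ((j : ℝ) + 1)) hpos tendsto_one_div_add_atTop_nhds_zero_nat
    (fun j y => ⟨C₀ j y, fun T hT => (hR j y T hT).1⟩) (fun _ => φ)
  obtain ⟨E2, hE2, h2⟩ := Pool.Agent.R559.NP.near_zero_lvl (Y := Y) (Z := ℕ × ℕ × ℕ) (X := X)
    (F := fun j y T => {w ∈ Solutions y.1.1 y.1.2.1 T (R j y) y.1.2.2.1 y.1.2.2.2.1 y.1.2.2.2.2 |
          Nat.gcd w.1 w.2.1 ≤ y.1.2.1})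
    (by
      rintro j y t t' htt w ⟨hw, hw'⟩
      exact ⟨sol_mono htt hw, hw'⟩)
    (s := fun j => 1 / ((j : ℝ) + 1)) hpos tendsto_one_div_add_atTop_nhds_zero_nat
    (fun j y => ⟨C₀ j y, fun T hT => (hR j y T hT).2⟩) (fun y w => φ (ratio y.1.2.2.1 y.1.2.2.2.2 w))
  refine ⟨E1 ∪ E2, ?_, fun ξ hξ τ hτ S Q A B C hA hB hC => ?_⟩
  · rw [dimH_union, hE1, hE2]
    simp
  · rw [Set.mem_union, not_or] at hξ
    obtain ⟨j1, hj1⟩ := h1 ξ hξ.1 τ hτ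
    obtain ⟨j2, hj2⟩ := h2 ξ hξ.2 τ hτ
    let y : Y := ⟨(S, Q, A, B, C), hA, hB, hC⟩
    refine ⟨max (R j1 y) (R j2 y), fun c => ⟨(hj1 y c).subset ?_, (hj2 y c).subset ?_⟩⟩
    · rintro x ⟨T, hT, ⟨w, hw, rfl⟩, hd⟩
      exact ⟨T, hT, ⟨w, sol_anti (le_max_left _ _) hw, rfl⟩, hd⟩
    · rintro w ⟨T, hT, hw, hg, hd⟩
      exact ⟨T, hT, ⟨sol_anti (le_max_right _ _) hw, hg⟩, hd⟩

end Pool.Agent.Results.MP_4ffbf9_nt.RatiosNearAPoint
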