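import Pool.Agent.Results.MP_4ffbf9_nt.FactorWindows
import Pool.Agent.R482.ST.Star

/-!
# No largest factors of solutions of `A X + B Y = C Z` in products of small spread near powers, orbits
and other sequences

Let `f_k`, `k = 0, 1, 2, …`, be positive functions on `(a, ∞)`, `a ≥ 0`, such that `f_k(t) / t` is nondecreasing, and such
that the sequence `f_k(t)` has exponent of convergence at most `τ` for each `t > a`: for instance `f_k(t) = t ^ (v_k)` for
exponents `v_k ≥ 1` (`τ = 0`; all powers, the powers `t ^ (3 ^ k)` of Mills, …), the orbits `f_k(t) = g (g (⋯ g (t)))` of any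
map `g` with `g(t) > t` and `g(t) / t` nondecreasing (`τ = 0`; for instance of `t² + c`), and `f_k(t) = v_k t`.
Let `θ < 1`. For all `α > a` outside a set of Hausdorff dimension at most `τ / (1 - θ)` (dimension `0` for powers and orbits)
and all `S`, `Q`, `P`, `c` there are `R` and `δ > 0` such that for all but finitely many `k` there is no solution of
`A X + B Y = C Z` with `gcd (X, Y) ≤ Q rad (gcd (X, Y))`, coefficients `A, B, C ≤ exp (M ^ δ)` without prime factors larger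
than `P` and `X`, `Y`, `Z` products of spread at most `S` of degrees between `R` and `M ^ δ`, whose largest factor `M`
satisfies `|M - f_k(α)| ≤ c f_k(α) ^ θ`.
-/

set_option autoImplicit false

namespace Pool.Agent.Results.MP_4ffbf9_nt.StarshapedFactors

open Finset Filter Topology
open FactorWindows (Solved count)

/-- the functions `f n` are positive on `(a, ∞)`, `a ≥ 0`, and `f n x / x` is nondecreasing there -/
def Starshaped (a : ℝ) (f : ℕ → ℝ → ℝ) : Prop :=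
  0 ≤ a ∧ ∀ n : ℕ, ∀ x y : ℝ, a < x → x ≤ y → 0 < f n x ∧ f n x / x ≤ f n y / y

/-- for each `x > a` the exponent of convergence of the sequence `f n x` is at most `τ` -/
def ExpLe (a : ℝ) (f : ℕ → ℝ → ℝ) (τ : ℝ) : Prop :=
  ∀ x : ℝ, a < x → ∀ t : ℝ, τ < t → Summable (fun n : ℕ => (f n x) ^ (-t))

lemma one_family (S Q P : ℕ) {a : ℝ} {f : ℕ → ℝ → ℝ} {τ θ : ℝ} (hf : Starshaped a f) (hτ : 0 ≤ τ)
    (hE : ExpLe a f τ) (hθ1 : θ < 1) :
    ∃ E : Set ℝ, dimH E ≤ ENNReal.ofReal (τ / (1 - θ)) ∧ ∀ α : ℝ, a < α → α ∉ E →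
      ∃ (R : ℕ) (δ : ℝ), 0 < δ ∧ ∀ c : ℝ, ∃ k₀ : ℕ, ∀ k : ℕ, k₀ ≤ k → ∀ M : ℕ, Solved S Q P R δ M →
        c * (f k α) ^ θ < |(M : ℝ) - f k α| := by
  classical
  have hall : ∀ j : ℕ, ∃ (R : ℕ) (δ : ℝ) (E : Set ℝ), 0 < δ ∧
      dimH E ≤ ENNReal.ofReal ((1 / ((j : ℝ) + 1) + τ) / (1 - θ)) ∧
      ∀ α : ℝ, a < α → α ∉ E → ∀ c : ℝ, ∃ k₀ : ℕ, ∀ k : ℕ, k₀ ≤ k → ∀ m : ℕ,
        |(m : ℝ) - f k α| ≤ c * (f k α) ^ θ → 0 < m ∧ m ∉ {M : ℕ | Solved S Q P R δ M} := by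
    intro j
    obtain ⟨R, δ, hδ, C, hC, h⟩ := count S Q P (1 / ((j : ℝ) + 1)) (by positivity)
    obtain ⟨E, h3, h4⟩ := Pool.Agent.R482.ST.win_nat {M : ℕ | Solved S Q P R δ M} hf hτ hE
      (s := 1 / ((j : ℝ) + 1)) (by positivity) hθ1 (fun ε hε => by
        refine ⟨C, fun X hX => (le_of_eq ?_).trans ((h X hX).trans ?_)⟩
        · congr 2
        · have hX1 : (1 : ℝ) ≤ X := by exact_mod_cast hX
          apply mul_le_mul_of_nonneg_left _ hC
          apply Real.rpow_le_rpow_of_exponent_le hX1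
          linarith)
    exact ⟨R, δ, E, hδ, h3, h4⟩
  choose R δ G hδ hG1 hG2 using hall
  have hlim : Tendsto (fun m : ℕ => ENNReal.ofReal ((1 / ((m : ℝ) + 1) + τ) / (1 - θ))) atTop
      (𝓝 (ENNReal.ofReal ((0 + τ) / (1 - θ)))) :=
    ENNReal.tendsto_ofReal ((tendsto_one_div_add_atTop_nhds_zero_nat.add_const τ).div_const (1 - θ))
  rw [zero_add] at hlim
  refine ⟨⋂ m, G m, ge_of_tendsto' hlim fun m => (dimH_mono (Set.iInter_subset _ m)).trans (hG1 m),
    fun α hα hαE => ?_⟩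
  rw [Set.mem_iInter] at hαE
  push Not at hαE
  obtain ⟨j, hj⟩ := hαE
  refine ⟨R j, δ j, hδ j, fun c => ?_⟩
  obtain ⟨k₀, hk⟩ := hG2 j α hα hj c
  refine ⟨k₀, fun k hk1 M hM => ?_⟩
  by_contra hcon
  push Not at hcon
  exact (hk k hk1 _ hcon).2 hM

/-- **Theorem.** Let `f` be starshaped functions on `(a, ∞)` of exponent of convergence at most `τ ≥ 0` and `θ < 1`. There is a
set `E` of Hausdorff dimension at most `τ / (1 - θ)` such that for all `α > a` outside `E` and all `S`, `Q`, `P` there are `R`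
and `δ > 0` such that for all `c` and all but finitely many `k` there is no solution of `A X + B Y = C Z` with
`gcd (X, Y) ≤ Q rad (gcd (X, Y))`, coefficients `A, B, C ≤ exp (M ^ δ)` without prime factors larger than `P` and `X`, `Y`,
`Z` products of spread at most `S` of degrees between `R` and `M ^ δ`, whose largest factor `M` satisfies
`|M - f_k(α)| ≤ c f_k(α) ^ θ`. The functions `v_n x`, `v_n > 0`, are starshaped on `(0, ∞)`, of exponent `τ` if `v` has
exponent of convergence at most `τ`; the functions `x ^ (v_n)`, `v_n ≥ 1`, are starshaped on `(1, ∞)`, of exponent `0` if the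
sums of `exp (-t v_n)` converge for `t > 0`; and the iterates of a map `g` with `g(x) > x` for `x > a` and `g(x) / x`
nondecreasing are starshaped on `(a, ∞)`, of exponent `0`. -/
theorem result :
    (∀ (a : ℝ) (f : ℕ → ℝ → ℝ) (τ θ : ℝ), Starshaped a f → 0 ≤ τ → ExpLe a f τ → θ < 1 →
      ∃ E : Set ℝ, dimH E ≤ ENNReal.ofReal (τ / (1 - θ)) ∧ ∀ α : ℝ, a < α → α ∉ E → ∀ S Q P : ℕ,
        ∃ (R : ℕ) (δ : ℝ), 0 < δ ∧ ∀ c : ℝ, ∃ k₀ : ℕ, ∀ k : ℕ, k₀ ≤ k → ∀ M : ℕ, Solved S Q P R δ M →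
          c * (f k α) ^ θ < |(M : ℝ) - f k α|) ∧
    (∀ (v : ℕ → ℝ) (τ : ℝ), (∀ n, 0 < v n) → (∀ t : ℝ, τ < t → Summable (fun n : ℕ => (v n) ^ (-t))) →
      Starshaped 0 (fun n x => v n * x) ∧ ExpLe 0 (fun n x => v n * x) τ) ∧
    (∀ v : ℕ → ℝ, (∀ n, 1 ≤ v n) → (∀ t : ℝ, 0 < t → Summable fun n : ℕ => Real.exp (-(t * v n))) →
      Starshaped 1 (fun n x => x ^ (v n)) ∧ ExpLe 1 (fun n x => x ^ (v n)) 0) ∧
    (∀ (a : ℝ) (g : ℝ → ℝ), 0 ≤ a → (∀ x y : ℝ, a < x → x ≤ y → g x / x ≤ g y / y) → (∀ x : ℝ, a < x → x < g x) →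
      Starshaped a (fun n x => g^[n] x) ∧ ExpLe a (fun n x => g^[n] x) 0) := by
  refine ⟨fun a f τ θ hf hτ hE hθ1 => ?_, Pool.Agent.R482.ST.ex_mul, Pool.Agent.R482.ST.ex_pow,
    Pool.Agent.R482.ST.ex_orbit⟩
  have hall : ∀ c : ℕ × ℕ × ℕ, _ := fun c => one_family c.1 c.2.1 c.2.2 hf hτ hE hθ1
  choose E hE1 hE2 using hall
  refine ⟨⋃ c, E c, ?_, fun α hα hαE S Q P => ?_⟩
  · rw [dimH_iUnion]
    exact iSup_le hE1
  · rw [Set.mem_iUnion] at hαE
    push Not at hαE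
    exact hE2 (S, Q, P) α hα (hαE (S, Q, P))

end Pool.Agent.Results.MP_4ffbf9_nt.StarshapedFactors
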